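import Pool.Agent.W2helper1.WH.Stm

/-!
# Piece WH-CORE of helper1's project WH (MP_9fbcbb_an)
-/

namespace Pool.Agent.W2helper15.WH

open Pool.Agent.W2helper1.WH
open Filter Topology

/-- real version of `c` -/
noncomputable def cR (k : ℕ) : ℝ := ((c k : ℚ) : ℝ)

theorem cR_eq (k : ℕ) : cR k = (92 / 125 : ℝ) ^ k / (k.factorial : ℝ) := by
  unfold cR c tau
  push_cast
  ring

theorem cR_nonneg (k : ℕ) : 0 ≤ cR k := by
  rw [cR_eq]; positivity

theorem norm_cC (k : ℕ) : ‖((c k : ℚ) : ℂ)‖ = cR k := by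
  have h : ((c k : ℚ) : ℂ) = ((cR k : ℝ) : ℂ) := by
    unfold cR
    push_cast
    rfl
  rw [h, Complex.norm_real, Real.norm_of_nonneg (cR_nonneg k)]

theorem cR_succ (k : ℕ) : cR (k + 1) = cR k * ((92 / 125) / ((k : ℝ) + 1)) := by
  rw [cR_eq, cR_eq, Nat.factorial_succ, pow_succ]
  push_cast
  have h1 : ((k.factorial : ℝ)) ≠ 0 := by positivity
  have h2 : ((k : ℝ) + 1) ≠ 0 := by positivity
  field_simp

theorem cR_add_le (n j : ℕ) : cR (n + j) ≤ cR n * ((92 / 125) / ((n : ℝ) + 1)) ^ j := by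
  induction j with
  | zero => simp
  | succ j ih =>
    have e : n + (j + 1) = (n + j) + 1 := by ring
    rw [e, cR_succ, pow_succ, ← mul_assoc]
    apply mul_le_mul ih _ (by positivity)
    · have := cR_nonneg n
      positivity
    · push_cast
      apply div_le_div_of_nonneg_left (by norm_num) (by positivity)
      have : (0 : ℝ) ≤ j := by positivity
      linarith

/-- bound of the tail -/
noncomputable def tl (n : ℕ) : ℝ := cR n * (1 - (92 / 125) / ((n : ℝ) + 1))⁻¹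

theorem tail_bound (f : ℕ → ℂ) (s : ℂ) (S : ℝ) (hS : 0 ≤ S) (hf : HasSum f s)
    (hb : ∀ k, ‖f k‖ ≤ S * cR k) (n : ℕ) :
    ‖s - ∑ k ∈ Finset.range n, f k‖ ≤ S * tl n := by
  have h1 : HasSum (fun j => f (j + n)) (s - ∑ k ∈ Finset.range n, f k) :=
    (hasSum_nat_add_iff' n).2 hf
  have hr0 : (0 : ℝ) ≤ (92 / 125) / ((n : ℝ) + 1) := by positivity
  have hr1 : (92 / 125) / ((n : ℝ) + 1) < 1 := by
    rw [div_lt_one (by positivity)]
    have : (0 : ℝ) ≤ n := by positivity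
    linarith
  have h2 : HasSum (fun j : ℕ => S * (cR n * ((92 / 125) / ((n : ℝ) + 1)) ^ j)) (S * tl n) :=
    ((hasSum_geometric_of_lt_one hr0 hr1).mul_left (cR n)).mul_left S
  refine h1.norm_le_of_bounded h2 (fun j => ?_)
  refine (hb _).trans ?_
  apply mul_le_mul_of_nonneg_left _ hS
  rw [add_comm j n]
  exact cR_add_le n j

theorem maxdisk (g : ℂ → ℂ) (hg : DifferentiableOn ℂ g (Metric.ball 0 2)) (C : ℝ)
    (h : ∀ z : ℂ, ‖z‖ = 1 → ‖g z‖ ≤ C) (z : ℂ) (hz : ‖z‖ ≤ 1) : ‖g z‖ ≤ C := by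
  have hcl : closure (Metric.ball (0 : ℂ) 1) = Metric.closedBall 0 1 :=
    closure_ball _ one_ne_zero
  have hfr : frontier (Metric.ball (0 : ℂ) 1) = Metric.sphere 0 1 :=
    frontier_ball _ one_ne_zero
  have hd : DiffContOnCl ℂ g (Metric.ball 0 1) := by
    apply DifferentiableOn.diffContOnCl
    rw [hcl]
    apply hg.mono
    intro x hx
    have hx' : ‖x‖ ≤ 1 := by simpa using hx
    have : ‖x‖ < 2 := by linarith
    simpa using this
  apply Complex.norm_le_of_forall_mem_frontier_norm_le Metric.isBounded_ball hd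
  · intro x hx
    rw [hfr] at hx
    exact h x (by simpa using hx)
  · rw [hcl]
    simpa using hz

/-- unimodular rotation -/
theorem exists_rot (a : ℂ) : ∃ e : ℂ, ‖e‖ = 1 ∧ e * a = ((‖a‖ : ℝ) : ℂ) := by
  by_cases ha : a = 0
  · exact ⟨1, by simp, by simp [ha]⟩
  · refine ⟨(starRingEnd ℂ) a / ((‖a‖ : ℝ) : ℂ), ?_, ?_⟩
    · rw [norm_div, RCLike.norm_conj, Complex.norm_real, norm_norm]
      exact div_self (norm_ne_zero_iff.2 ha)
    · have hn : ((‖a‖ : ℝ) : ℂ) ≠ 0 := by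
        exact_mod_cast (norm_ne_zero_iff.2 ha)
      rw [div_mul_eq_mul_div, div_eq_iff hn, mul_comm, Complex.mul_conj, Complex.normSq_eq_norm_sq]
      push_cast
      ring

/-- The sum of the certificate polynomials with unimodular weights. -/
noncomputable def FF (e0 e1 e2 e3 e4 e5 u v w : ℂ) : ℂ :=
  e0 * P2 u + e1 * P3 u v + e2 * PP 0 u v w + e3 * PP 1 u v w + e4 * PP 2 u v w
    + e5 * PP 3 u v w

theorem polydisc (H : TorusIneq) (u v w : ℂ) (hu : ‖u‖ ≤ 1) (hv : ‖v‖ ≤ 1) (hw : ‖w‖ ≤ 1) :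
    ‖P2 u‖ + ‖P3 u v‖ + ‖PP 0 u v w‖ + ‖PP 1 u v w‖ + ‖PP 2 u v w‖ + ‖PP 3 u v w‖
      ≤ 9997 / 10000 := by
  obtain ⟨e0, h0, k0⟩ := exists_rot (P2 u)
  obtain ⟨e1, h1, k1⟩ := exists_rot (P3 u v)
  obtain ⟨e2, h2, k2⟩ := exists_rot (PP 0 u v w)
  obtain ⟨e3, h3, k3⟩ := exists_rot (PP 1 u v w)
  obtain ⟨e4, h4, k4⟩ := exists_rot (PP 2 u v w)
  obtain ⟨e5, h5, k5⟩ := exists_rot (PP 3 u v w)
  have hT : ∀ a b d : ℂ, ‖a‖ = 1 → ‖b‖ = 1 → ‖d‖ = 1 →
      ‖FF e0 e1 e2 e3 e4 e5 a b d‖ ≤ 9997 / 10000 := by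
    intro a b d ha hb hd
    refine le_trans ?_ (H a b d ha hb hd)
    unfold FF
    refine (norm_add_le _ _).trans (add_le_add ((norm_add_le _ _).trans (add_le_add
      ((norm_add_le _ _).trans (add_le_add ((norm_add_le _ _).trans (add_le_add
      ((norm_add_le _ _).trans (add_le_add ?_ ?_)) ?_)) ?_)) ?_)) ?_)
    · rw [norm_mul, h0, one_mul]
    · rw [norm_mul, h1, one_mul]
    · rw [norm_mul, h2, one_mul]
    · rw [norm_mul, h3, one_mul]
    · rw [norm_mul, h4, one_mul]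
    · rw [norm_mul, h5, one_mul]
  have hT1 : ∀ a b d : ℂ, ‖a‖ ≤ 1 → ‖b‖ = 1 → ‖d‖ = 1 →
      ‖FF e0 e1 e2 e3 e4 e5 a b d‖ ≤ 9997 / 10000 := by
    intro a b d ha hb hd
    refine maxdisk (fun x => FF e0 e1 e2 e3 e4 e5 x b d) ?_ _ (fun x hx => hT x b d hx hb hd) a ha
    apply Differentiable.differentiableOn
    unfold FF P2 P3 PP
    fun_prop
  have hT2 : ∀ a b d : ℂ, ‖a‖ ≤ 1 → ‖b‖ ≤ 1 → ‖d‖ = 1 →
      ‖FF e0 e1 e2 e3 e4 e5 a b d‖ ≤ 9997 / 10000 := by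
    intro a b d ha hb hd
    refine maxdisk (fun x => FF e0 e1 e2 e3 e4 e5 a x d) ?_ _ (fun x hx => hT1 a x d ha hx hd) b hb
    apply Differentiable.differentiableOn
    unfold FF P2 P3 PP
    fun_prop
  have hT3 : ∀ a b d : ℂ, ‖a‖ ≤ 1 → ‖b‖ ≤ 1 → ‖d‖ ≤ 1 →
      ‖FF e0 e1 e2 e3 e4 e5 a b d‖ ≤ 9997 / 10000 := by
    intro a b d ha hb hd
    refine maxdisk (fun x => FF e0 e1 e2 e3 e4 e5 a b x) ?_ _ (fun x hx => hT2 a b x ha hb hx) d hd
    apply Differentiable.differentiableOn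
    unfold FF P2 P3 PP
    fun_prop
  have hF : FF e0 e1 e2 e3 e4 e5 u v w
      = ((‖P2 u‖ + ‖P3 u v‖ + ‖PP 0 u v w‖ + ‖PP 1 u v w‖ + ‖PP 2 u v w‖ + ‖PP 3 u v w‖ : ℝ) : ℂ) := by
    unfold FF
    rw [k0, k1, k2, k3, k4, k5]
    push_cast
    ring
  have := hT3 u v w hu hv hw
  rw [hF, Complex.norm_real, Real.norm_of_nonneg (by positivity)] at this
  exact this

theorem summable_cR (S : ℝ) (x : ℝ) : Summable (fun k : ℕ => S * (cR k * x ^ k)) := by
  apply Summable.mul_left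
  have h := Real.summable_pow_div_factorial (92 / 125 * x)
  refine h.congr (fun k => ?_)
  rw [cR_eq, mul_pow]
  ring

theorem c_zero : c 0 = 1 := by
  unfold c; simp

/-- the estimate on the unit circle -/
theorem circle_est (H : TorusIneq) (A z : ℕ → ℂ) (hA : ∀ k, ‖A k‖ ≤ ‖A 0‖)
    (hz : ∀ j, ‖z j‖ ≤ 1)
    (hr : ∀ j, HasSum (fun k : ℕ => ((c k : ℚ) : ℂ) * z j ^ k * A (j + k)) 0)
    (ζ : ℂ) (hζ : ‖ζ‖ = 1) (s : ℂ)
    (hs : HasSum (fun k : ℕ => ((c k : ℚ) : ℂ) * ζ ^ k * A k) s) :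
    ‖s - A 0‖ ≤ 99998 / 100000 * ‖A 0‖ := by
  have hζ0 : ζ ≠ 0 := by
    intro h; rw [h] at hζ; simp at hζ
  set S : ℝ := ‖A 0‖ with hSdef
  have hS : 0 ≤ S := norm_nonneg _
  set B : ℕ → ℂ := fun k => ζ ^ k * A k with hBdef
  have hB : ∀ k, ‖B k‖ ≤ S := by
    intro k
    simp only [hBdef, norm_mul, norm_pow, hζ, one_pow, one_mul]
    exact hA k
  -- shifted relations
  have hrel : ∀ j : ℕ, HasSum (fun k : ℕ => ((c k : ℚ) : ℂ) * (z j / ζ) ^ k * B (j + k)) 0 := by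
    intro j
    have h : HasSum (fun k : ℕ => ζ ^ j * (((c k : ℚ) : ℂ) * z j ^ k * A (j + k))) (ζ ^ j * 0) :=
      (hr j).mul_left (ζ ^ j)
    rw [mul_zero] at h
    have e : (fun k : ℕ => ((c k : ℚ) : ℂ) * (z j / ζ) ^ k * B (j + k))
        = fun k : ℕ => ζ ^ j * (((c k : ℚ) : ℂ) * z j ^ k * A (j + k)) := by
      funext k
      simp only [hBdef]
      rw [pow_add, div_pow]
      field_simp
    rw [e]
    exact h
  have hzu : ∀ j, ‖z j / ζ‖ ≤ 1 := by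
    intro j
    rw [norm_div, hζ, div_one]
    exact hz j
  have hbd : ∀ (x : ℂ) (j k : ℕ), ‖x‖ ≤ 1 → ‖((c k : ℚ) : ℂ) * x ^ k * B (j + k)‖ ≤ S * cR k := by
    intro x j k hx
    rw [norm_mul, norm_mul, norm_cC, norm_pow]
    have h1 : ‖x‖ ^ k ≤ 1 := pow_le_one₀ (norm_nonneg _) hx
    have h2 : cR k * ‖x‖ ^ k ≤ cR k := by
      have := mul_le_mul_of_nonneg_left h1 (cR_nonneg k)
      simpa using this
    calc cR k * ‖x‖ ^ k * ‖B (j + k)‖ ≤ cR k * S :=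
          mul_le_mul h2 (hB _) (norm_nonneg _) (cR_nonneg k)
      _ = S * cR k := mul_comm _ _
  have hs0 : HasSum (fun k : ℕ => ((c k : ℚ) : ℂ) * (1 : ℂ) ^ k * B (0 + k)) s := by
    have e : (fun k : ℕ => ((c k : ℚ) : ℂ) * (1 : ℂ) ^ k * B (0 + k))
        = fun k : ℕ => ((c k : ℚ) : ℂ) * ζ ^ k * A k := by
      funext k
      simp only [hBdef, zero_add, one_pow, mul_one]
      ring
    rw [e]
    exact hs
  have t0 := tail_bound _ _ S hS hs0 (fun k => hbd 1 0 k (by simp)) 8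
  have t1 := tail_bound _ _ S hS (hrel 1) (fun k => hbd _ 1 k (hzu 1)) 7
  have t2 := tail_bound _ _ S hS (hrel 2) (fun k => hbd _ 2 k (hzu 2)) 6
  have t3 := tail_bound _ _ S hS (hrel 3) (fun k => hbd _ 3 k (hzu 3)) 5
  set u : ℂ := z 1 / ζ with hu
  set v : ℂ := z 2 / ζ with hv
  set w : ℂ := z 3 / ζ with hw
  have hP := polydisc H u v w (hzu 1) (hzu 2) (hzu 3)
  set m1 : ℂ := -((c 1 : ℚ) : ℂ) with hm1
  set m2 : ℂ := -((p0 : ℚ) : ℂ) + ((p1 : ℚ) : ℂ) * u with hm2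
  set m3 : ℂ := ((mu : ℚ) : ℂ) * (1 - u) * v with hm3
  have key : s - A 0 = (s - ∑ k ∈ Finset.range 8, ((c k : ℚ) : ℂ) * (1 : ℂ) ^ k * B (0 + k))
      + m1 * (0 - ∑ k ∈ Finset.range 7, ((c k : ℚ) : ℂ) * u ^ k * B (1 + k))
      + m2 * (0 - ∑ k ∈ Finset.range 6, ((c k : ℚ) : ℂ) * v ^ k * B (2 + k))
      + m3 * (0 - ∑ k ∈ Finset.range 5, ((c k : ℚ) : ℂ) * w ^ k * B (3 + k))
      + (P2 u * B 2 + P3 u v * B 3 + PP 0 u v w * B 4 + PP 1 u v w * B 5 + PP 2 u v w * B 6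
        + PP 3 u v w * B 7) := by
    have hB0 : B 0 = A 0 := by simp [hBdef]
    clear_value B u v w
    simp only [Finset.sum_range_succ, Finset.sum_range_zero, P2, P3, PP, hm1, hm2, hm3]
    norm_num only [c_zero]
    push_cast
    rw [← hB0]
    ring
  have n1 : ‖m1‖ = cR 1 := by
    rw [hm1, norm_neg, norm_cC]
  have hu1 : ‖u‖ ≤ 1 := hzu 1
  have hv1 : ‖v‖ ≤ 1 := hzu 2
  have hw1 : ‖w‖ ≤ 1 := hzu 3
  have np0 : ‖((p0 : ℚ) : ℂ)‖ = 211 / 2000 := by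
    have : ((p0 : ℚ) : ℂ) = (((211 / 2000 : ℝ)) : ℂ) := by
      unfold p0; push_cast; norm_num
    rw [this, Complex.norm_real]; norm_num
  have np1 : ‖((p1 : ℚ) : ℂ)‖ = 2477 / 10000 := by
    have : ((p1 : ℚ) : ℂ) = (((2477 / 10000 : ℝ)) : ℂ) := by
      unfold p1; push_cast; norm_num
    rw [this, Complex.norm_real]; norm_num
  have nmu : ‖((mu : ℚ) : ℂ)‖ = 409 / 10000 := by
    have : ((mu : ℚ) : ℂ) = (((409 / 10000 : ℝ)) : ℂ) := by
      unfold mu; push_cast; norm_num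
    rw [this, Complex.norm_real]; norm_num
  have n2 : ‖m2‖ ≤ 3532 / 10000 := by
    rw [hm2]
    refine (norm_add_le _ _).trans ?_
    rw [norm_neg, norm_mul, np0, np1]
    linarith
  have n3 : ‖m3‖ ≤ 818 / 10000 := by
    rw [hm3, norm_mul, norm_mul, nmu]
    have h1 : ‖1 - u‖ ≤ 2 := by
      refine (norm_sub_le _ _).trans ?_
      rw [norm_one]; linarith
    have h2 : ‖1 - u‖ * ‖v‖ ≤ 2 * 1 := mul_le_mul h1 hv1 (norm_nonneg _) (by norm_num)
    calc 409 / 10000 * ‖1 - u‖ * ‖v‖ = 409 / 10000 * (‖1 - u‖ * ‖v‖) := by ring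
      _ ≤ 409 / 10000 * (2 * 1) := mul_le_mul_of_nonneg_left h2 (by norm_num)
      _ = 818 / 10000 := by norm_num
  have hPB : ‖P2 u * B 2 + P3 u v * B 3 + PP 0 u v w * B 4 + PP 1 u v w * B 5 + PP 2 u v w * B 6
        + PP 3 u v w * B 7‖ ≤ 9997 / 10000 * S := by
    have hx : ∀ (x : ℂ) (k : ℕ), ‖x * B k‖ ≤ ‖x‖ * S := by
      intro x k
      rw [norm_mul]
      exact mul_le_mul_of_nonneg_left (hB k) (norm_nonneg _)
    have h1 : ‖P2 u * B 2 + P3 u v * B 3 + PP 0 u v w * B 4 + PP 1 u v w * B 5 + PP 2 u v w * B 6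
        + PP 3 u v w * B 7‖ ≤ ‖P2 u‖ * S + ‖P3 u v‖ * S + ‖PP 0 u v w‖ * S + ‖PP 1 u v w‖ * S
          + ‖PP 2 u v w‖ * S + ‖PP 3 u v w‖ * S := by
      refine (norm_add_le _ _).trans (add_le_add ((norm_add_le _ _).trans (add_le_add
        ((norm_add_le _ _).trans (add_le_add ((norm_add_le _ _).trans (add_le_add
        ((norm_add_le _ _).trans (add_le_add ?_ ?_)) ?_)) ?_)) ?_)) ?_) <;> exact hx _ _
    refine h1.trans ?_
    have h2 := mul_le_mul_of_nonneg_right hP hS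
    linarith
  have l0 : tl 8 ≤ 3 / 1000000 := by
    unfold tl
    rw [cR_eq]
    norm_num [Nat.factorial]
  have l1 : cR 1 * tl 7 ≤ 19 / 1000000 := by
    unfold tl
    rw [cR_eq, cR_eq]
    norm_num [Nat.factorial]
  have l2 : tl 6 ≤ 2468 / 10000000 := by
    unfold tl
    rw [cR_eq]
    norm_num [Nat.factorial]
  have l3 : tl 5 ≤ 2052 / 1000000 := by
    unfold tl
    rw [cR_eq]
    norm_num [Nat.factorial]
  rw [key]
  have e1 : ‖m1 * (0 - ∑ k ∈ Finset.range 7, ((c k : ℚ) : ℂ) * u ^ k * B (1 + k))‖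
      ≤ 19 / 1000000 * S := by
    rw [norm_mul, n1]
    calc cR 1 * _ ≤ cR 1 * (S * tl 7) := mul_le_mul_of_nonneg_left t1 (cR_nonneg 1)
      _ = (cR 1 * tl 7) * S := by ring
      _ ≤ 19 / 1000000 * S := mul_le_mul_of_nonneg_right l1 hS
  have e2 : ‖m2 * (0 - ∑ k ∈ Finset.range 6, ((c k : ℚ) : ℂ) * v ^ k * B (2 + k))‖
      ≤ 88 / 1000000 * S := by
    rw [norm_mul]
    calc ‖m2‖ * _ ≤ 3532 / 10000 * (S * tl 6) :=
          mul_le_mul n2 t2 (norm_nonneg _) (by norm_num)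
      _ = 3532 / 10000 * tl 6 * S := by ring
      _ ≤ 88 / 1000000 * S := by
          apply mul_le_mul_of_nonneg_right _ hS
          linarith
  have e3 : ‖m3 * (0 - ∑ k ∈ Finset.range 5, ((c k : ℚ) : ℂ) * w ^ k * B (3 + k))‖
      ≤ 168 / 1000000 * S := by
    rw [norm_mul]
    calc ‖m3‖ * _ ≤ 818 / 10000 * (S * tl 5) :=
          mul_le_mul n3 t3 (norm_nonneg _) (by norm_num)
      _ = 818 / 10000 * tl 5 * S := by ring
      _ ≤ 168 / 1000000 * S := by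
          apply mul_le_mul_of_nonneg_right _ hS
          linarith
  have e0 : ‖s - ∑ k ∈ Finset.range 8, ((c k : ℚ) : ℂ) * (1 : ℂ) ^ k * B (0 + k)‖
      ≤ 3 / 1000000 * S := by
    refine t0.trans ?_
    rw [mul_comm]
    exact mul_le_mul_of_nonneg_right l0 hS
  refine (norm_add_le _ _).trans ((add_le_add ((norm_add_le _ _).trans (add_le_add
        ((norm_add_le _ _).trans (add_le_add ((norm_add_le _ _).trans (add_le_add e0 e1)) e2))
        e3)) hPB).trans ?_)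
  linarith

/-- **Piece WH-CORE.** -/
theorem s_core : S_CORE := by
  intro H A z hA hz hr
  by_contra hne
  have hSpos : 0 < ‖A 0‖ := norm_pos_iff.2 hne
  have hsum : ∀ x : ℂ, ‖x‖ < 2 → Summable (fun k : ℕ => ((c k : ℚ) : ℂ) * x ^ k * A k) := by
    intro x hx
    refine Summable.of_norm_bounded (summable_cR ‖A 0‖ 2) (fun k => ?_)
    rw [norm_mul, norm_mul, norm_cC, norm_pow, mul_comm]
    exact mul_le_mul (hA k) (mul_le_mul_of_nonneg_left
      (pow_le_pow_left₀ (norm_nonneg _) hx.le k) (cR_nonneg k))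
      (mul_nonneg (cR_nonneg k) (by positivity)) (norm_nonneg _)
  have hdiff : DifferentiableOn ℂ (fun x : ℂ => ∑' k : ℕ, ((c k : ℚ) : ℂ) * x ^ k * A k)
      (Metric.ball 0 2) := by
    apply Complex.differentiableOn_tsum_of_summable_norm (summable_cR ‖A 0‖ 2)
    · intro k
      apply Differentiable.differentiableOn
      fun_prop
    · exact Metric.isOpen_ball
    · intro k x hx
      have hx' : ‖x‖ < 2 := by simpa using hx
      rw [norm_mul, norm_mul, norm_cC, norm_pow, mul_comm]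
      exact mul_le_mul (hA k) (mul_le_mul_of_nonneg_left
        (pow_le_pow_left₀ (norm_nonneg _) hx'.le k) (cR_nonneg k))
        (mul_nonneg (cR_nonneg k) (by positivity)) (norm_nonneg _)
  have hmax := maxdisk (fun x : ℂ => (∑' k : ℕ, ((c k : ℚ) : ℂ) * x ^ k * A k) - A 0)
    (hdiff.sub_const _) (99998 / 100000 * ‖A 0‖)
    (fun ζ hζ => circle_est H A z hA hz hr ζ hζ _ (hsum ζ (by rw [hζ]; norm_num)).hasSum)
    (z 0) (hz 0)
  have h0 := (hr 0).tsum_eq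
  simp only [zero_add] at h0
  simp only [h0, zero_sub, norm_neg] at hmax
  nlinarith

end Pool.Agent.W2helper15.WH
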